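import Pool.Agent.Helper95.TT.St

/-!
# Project TT, module A1 (logarithm of the Dedekind zeta function)

The first half is a copy of the lemmas of `Pool.Agent.Helper34.TW.M_D1`.
-/

set_option autoImplicit false

open scoped NumberField
open NumberField IsDedekindDomain UniqueFactorizationMonoid Filter Topology

namespace Pool.Agent.Helper80.TT

open Pool.Agent.Helper95.TT

section D1

variable (K : Type) [Field K] [NumberField K]

/-- nonzero ideals -/
private abbrev NI_D1 : Type := {I : Ideal (𝓞 K) // I ≠ ⊥}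

/-- the terms of the Dirichlet series -/
private noncomputable def b_D1 (s : ℝ) (n : ℕ) : ℝ :=
  if n = 0 then 0 else (Nat.card {I : Ideal (𝓞 K) // Ideal.absNorm I = n} : ℝ) * (n : ℝ) ^ (-s)

private theorem b_nonneg_D1 (s : ℝ) (n : ℕ) : 0 ≤ b_D1 K s n := by
  unfold b_D1
  split_ifs
  · exact le_refl _
  · positivity

private theorem term_D1 (s : ℝ) (n : ℕ) :
    LSeries.term (fun n => (Nat.card {I : Ideal (𝓞 K) // Ideal.absNorm I = n} : ℂ)) s n = ((b_D1 K s n : ℝ) : ℂ) := by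
  rw [LSeries.term_def, b_D1]
  split_ifs with h
  · simp
  · rw [Real.rpow_neg (Nat.cast_nonneg n)]
    push_cast
    rw [Complex.ofReal_cpow (Nat.cast_nonneg n)]
    push_cast
    rfl

private theorem summable_b_D1 {s : ℝ} (hs : 1 < s) : Summable (b_D1 K s) := by
  have h1 := (tendsto_sub_one_mul_dedekindZeta_nhdsGT K)
  have h2 : ((dedekindZeta_residue K : ℝ) : ℂ) ≠ 0 := by
    exact_mod_cast dedekindZeta_residue_ne_zero K
  have h3 := h1.eventually_ne h2
  obtain ⟨s', hs', hs'2⟩ := (h3.and (Ioo_mem_nhdsGT hs)).exists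
  have h4 : dedekindZeta K s' ≠ 0 := right_ne_zero_of_mul hs'
  have h5 : LSeriesSummable (fun n => (Nat.card {I : Ideal (𝓞 K) // Ideal.absNorm I = n} : ℂ)) (s' : ℂ) := by
    by_contra hcon
    exact h4 (tsum_eq_zero_of_not_summable hcon)
  have h6 : LSeriesSummable (fun n => (Nat.card {I : Ideal (𝓞 K) // Ideal.absNorm I = n} : ℂ)) (s : ℂ) :=
    h5.of_re_le_re (by simpa using hs'2.2.le)
  have h7 : Summable (fun n => ((b_D1 K s n : ℝ) : ℂ)) := by
    have := h6
    unfold LSeriesSummable at this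
    refine this.congr fun n => ?_
    exact term_D1 K s n
  exact Complex.summable_ofReal.mp h7

private theorem zeta_D1 (s : ℝ) : (dedekindZeta K s).re = ∑' n, b_D1 K s n := by
  have h1 : dedekindZeta K s = ((∑' n, b_D1 K s n : ℝ) : ℂ) := by
    rw [Complex.ofReal_tsum]
    unfold dedekindZeta LSeries
    exact tsum_congr fun n => term_D1 K s n
  rw [h1, Complex.ofReal_re]

/-- the norm to the power `-s` as a multiplicative function -/
private noncomputable def f_D1 (s : ℝ) : Ideal (𝓞 K) →* ℝ where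
  toFun I := (Ideal.absNorm I : ℝ) ^ (-s)
  map_one' := by simp
  map_mul' I J := by
    rw [map_mul, Nat.cast_mul, Real.mul_rpow (Nat.cast_nonneg _) (Nat.cast_nonneg _)]

private theorem f_nonneg_D1 (s : ℝ) (I : Ideal (𝓞 K)) : 0 ≤ f_D1 K s I := by
  show 0 ≤ (Ideal.absNorm I : ℝ) ^ (-s)
  positivity

private theorem sum_ideals_D1 {s : ℝ} (hs : 1 < s) :
    Summable (fun I : NI_D1 K => f_D1 K s I.1) ∧ ∑' I : NI_D1 K, f_D1 K s I.1 = ∑' n, b_D1 K s n := by
  set e := Equiv.sigmaFiberEquiv (fun I : NI_D1 K => Ideal.absNorm I.1) with he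
  have hval : ∀ (n : ℕ) (I : {I : NI_D1 K // Ideal.absNorm I.1 = n}), f_D1 K s (e ⟨n, I⟩).1 = (n : ℝ) ^ (-s) := by
    intro n I
    show (Ideal.absNorm I.1.1 : ℝ) ^ (-s) = (n : ℝ) ^ (-s)
    rw [I.2]
  have hfin : ∀ n : ℕ, Finite {I : NI_D1 K // Ideal.absNorm I.1 = n} := by
    intro n
    have h1 : Finite {I : Ideal (𝓞 K) // Ideal.absNorm I = n} := Ideal.finite_setOfPred_absNorm_eq n
    refine Finite.of_injective (fun I : {I : NI_D1 K // Ideal.absNorm I.1 = n} =>
      (⟨I.1.1, I.2⟩ : {I : Ideal (𝓞 K) // Ideal.absNorm I = n})) ?_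
    intro I J h
    apply Subtype.ext
    apply Subtype.ext
    exact Subtype.mk.inj h
  have hcard : ∀ n : ℕ, n ≠ 0 → Nat.card {I : NI_D1 K // Ideal.absNorm I.1 = n} =
      Nat.card {I : Ideal (𝓞 K) // Ideal.absNorm I = n} := by
    intro n hn
    refine Nat.card_congr ⟨fun I => ⟨I.1.1, I.2⟩, fun I => ⟨⟨I.1, ?_⟩, I.2⟩, fun _ => rfl, fun _ => rfl⟩
    intro h
    apply hn
    rw [← I.2, h, Ideal.absNorm_bot]
  have hempty : IsEmpty {I : NI_D1 K // Ideal.absNorm I.1 = 0} := by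
    refine ⟨fun I => ?_⟩
    exact I.1.2 (Ideal.absNorm_eq_zero_iff.mp I.2)
  have hfib : ∀ n : ℕ, ∑' I : {I : NI_D1 K // Ideal.absNorm I.1 = n}, f_D1 K s (e ⟨n, I⟩).1 = b_D1 K s n := by
    intro n
    simp only [hval]
    rw [tsum_const, nsmul_eq_mul, b_D1]
    by_cases hn : n = 0
    · subst hn
      rw [if_pos rfl, Nat.card_of_isEmpty]
      simp
    · rw [if_neg hn, hcard n hn]
  have hsig : Summable (fun p : (Σ n : ℕ, {I : NI_D1 K // Ideal.absNorm I.1 = n}) => f_D1 K s (e p).1) := by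
    rw [summable_sigma_of_nonneg (fun p => f_nonneg_D1 K s _)]
    refine ⟨fun n => ?_, ?_⟩
    · have := hfin n
      exact Summable.of_finite
    · simp only [hfib]
      exact summable_b_D1 K hs
  refine ⟨e.summable_iff.mp hsig, ?_⟩
  rw [← e.tsum_eq, hsig.tsum_sigma]
  exact tsum_congr hfib

/-- the ideals `∏ v ^ e v` -/
private noncomputable def Ie_D1 (T : Finset (HeightOneSpectrum (𝓞 K))) (e : T → ℕ) : Ideal (𝓞 K) :=
  ∏ v : T, v.1.asIdeal ^ e v

private theorem Ie_ne_D1 (T : Finset (HeightOneSpectrum (𝓞 K))) (e : T → ℕ) : Ie_D1 K T e ≠ ⊥ := by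
  unfold Ie_D1
  rw [← Ideal.zero_eq_bot, Finset.prod_ne_zero_iff]
  intro v _
  exact pow_ne_zero _ v.1.ne_bot

private theorem nf_Ie_D1 (T : Finset (HeightOneSpectrum (𝓞 K))) (e : T → ℕ) :
    normalizedFactors (Ie_D1 K T e) = ∑ v : T, Multiset.replicate (e v) v.1.asIdeal := by
  have h1 : (∑ v : T, Multiset.replicate (e v) v.1.asIdeal).prod = Ie_D1 K T e := by
    rw [Multiset.prod_sum]
    simp [Ie_D1]
  rw [← h1, normalizedFactors_prod_eq]
  · simp
  · intro a ha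
    rw [Multiset.mem_sum] at ha
    obtain ⟨v, _, hv⟩ := ha
    rw [Multiset.eq_of_mem_replicate hv]
    exact v.1.irreducible

private theorem Ie_inj_D1 (T : Finset (HeightOneSpectrum (𝓞 K))) : Function.Injective (Ie_D1 K T) := by
  classical
  intro e e' h
  have h1 : normalizedFactors (Ie_D1 K T e) = normalizedFactors (Ie_D1 K T e') := by rw [h]
  rw [nf_Ie_D1, nf_Ie_D1] at h1
  have hc : ∀ (e : T → ℕ) (w : T), (∑ v : T, Multiset.replicate (e v) v.1.asIdeal).count w.1.asIdeal = e w := by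
    intro e w
    rw [Multiset.count_sum']
    rw [Finset.sum_eq_single w]
    · rw [Multiset.count_replicate_self]
    · intro v _ hv
      rw [Multiset.count_replicate, if_neg]
      intro h
      apply hv
      exact Subtype.ext (HeightOneSpectrum.ext h)
    · intro h
      exact absurd (Finset.mem_univ w) h
  funext w
  rw [← hc e w, h1, hc e' w]

open Classical in
private theorem prod_eq_D1 (s : ℝ) (T : Finset (HeightOneSpectrum (𝓞 K))) (M : ℕ) :
    ∏ v ∈ T, ∑ k ∈ Finset.range M, f_D1 K s v.asIdeal ^ k =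
      ∑ I ∈ (Fintype.piFinset (fun _ : T => Finset.range M)).image
        (fun e => (⟨Ie_D1 K T e, Ie_ne_D1 K T e⟩ : NI_D1 K)), f_D1 K s I.1 := by
  rw [Finset.sum_image]
  · rw [← Finset.prod_coe_sort, Finset.prod_univ_sum]
    refine Finset.sum_congr rfl fun e _ => ?_
    simp only [Ie_D1, map_prod, map_pow]
  · intro e _ e' _ h
    exact Ie_inj_D1 K T (congrArg Subtype.val h)

open Classical in
private theorem cover_D1 (F : Finset (NI_D1 K)) : ∃ (T : Finset (HeightOneSpectrum (𝓞 K))) (M : ℕ),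
    F ⊆ (Fintype.piFinset (fun _ : T => Finset.range M)).image
        (fun e => (⟨Ie_D1 K T e, Ie_ne_D1 K T e⟩ : NI_D1 K)) := by
  refine ⟨F.biUnion fun I => (Ideal.finite_factors I.2).toFinset,
    F.sup (fun I => Multiset.card (normalizedFactors I.1)) + 1, fun I hI => ?_⟩
  set T := F.biUnion fun I => (Ideal.finite_factors I.2).toFinset with hT
  rw [Finset.mem_image]
  refine ⟨fun v => (normalizedFactors I.1).count v.1.asIdeal, ?_, ?_⟩
  · rw [Fintype.mem_piFinset]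
    intro v
    rw [Finset.mem_range, Nat.lt_succ_iff]
    refine (Multiset.count_le_card _ _).trans ?_
    exact Finset.le_sup (f := fun I : NI_D1 K => Multiset.card (normalizedFactors I.1)) hI
  · apply Subtype.ext
    show Ie_D1 K T _ = I.1
    have h1 : (normalizedFactors I.1).toFinset ⊆ T.image (fun v => v.asIdeal) := by
      intro P hP
      rw [Multiset.mem_toFinset] at hP
      have hprime := prime_of_normalized_factor P hP
      have hdvd := dvd_of_mem_normalizedFactors hP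
      rw [Finset.mem_image]
      refine ⟨⟨P, Ideal.isPrime_of_prime hprime, hprime.ne_zero⟩, ?_, rfl⟩
      rw [hT, Finset.mem_biUnion]
      refine ⟨I, hI, ?_⟩
      rw [Set.Finite.mem_toFinset]
      exact hdvd
    have h2 := Finset.prod_multiset_count_of_subset (normalizedFactors I.1) (T.image (fun v => v.asIdeal)) h1
    rw [Ideal.prod_normalizedFactors_eq_self I.2, Finset.prod_image (fun v _ w _ h => HeightOneSpectrum.ext h)] at h2
    rw [Ie_D1]
    exact (Finset.prod_coe_sort T (fun v => v.asIdeal ^ (normalizedFactors I.1).count v.asIdeal)).trans h2.symm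

private theorem x_le_D1 {s : ℝ} (hs : 1 < s) (v : HeightOneSpectrum (𝓞 K)) :
    0 ≤ f_D1 K s v.asIdeal ∧ f_D1 K s v.asIdeal ≤ 1 / 2 ∧ f_D1 K s v.asIdeal ^ 2 ≤ f_D1 K 2 v.asIdeal := by
  have h0 : Ideal.absNorm v.asIdeal ≠ 0 := by
    intro h
    exact v.ne_bot (Ideal.absNorm_eq_zero_iff.mp h)
  have h1 : Ideal.absNorm v.asIdeal ≠ 1 := by
    intro h
    exact v.isPrime.ne_top (Ideal.absNorm_eq_one_iff.mp h)
  have h2 : (2 : ℝ) ≤ (Ideal.absNorm v.asIdeal : ℝ) := by
    have : 2 ≤ Ideal.absNorm v.asIdeal := by omega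
    exact_mod_cast this
  refine ⟨f_nonneg_D1 K s _, ?_, ?_⟩
  · show (Ideal.absNorm v.asIdeal : ℝ) ^ (-s) ≤ 1 / 2
    rw [Real.rpow_neg (by linarith), one_div]
    apply inv_anti₀ (by norm_num)
    calc (2 : ℝ) ≤ (Ideal.absNorm v.asIdeal : ℝ) ^ (1 : ℝ) := by rw [Real.rpow_one]; exact h2
      _ ≤ (Ideal.absNorm v.asIdeal : ℝ) ^ s := Real.rpow_le_rpow_of_exponent_le (by linarith) hs.le
  · show ((Ideal.absNorm v.asIdeal : ℝ) ^ (-s)) ^ 2 ≤ (Ideal.absNorm v.asIdeal : ℝ) ^ (-(2 : ℝ))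
    rw [← Real.rpow_natCast, ← Real.rpow_mul (by linarith)]
    apply Real.rpow_le_rpow_of_exponent_le (by linarith)
    push_cast
    linarith


private theorem upA1 {s : ℝ} (hs : 1 < s) (T : Finset (HeightOneSpectrum (𝓞 K))) :
    ∏ v ∈ T, (1 - f_D1 K s v.asIdeal)⁻¹ ≤ ∑' I : NI_D1 K, f_D1 K s I.1 := by
  classical
  have h1 : ∀ M : ℕ, ∏ v ∈ T, ∑ k ∈ Finset.range M, f_D1 K s v.asIdeal ^ k ≤
      ∑' I : NI_D1 K, f_D1 K s I.1 := by
    intro M
    rw [prod_eq_D1]
    exact (sum_ideals_D1 K hs).1.sum_le_tsum _ (fun I _ => f_nonneg_D1 K s _)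
  have h2 : Tendsto (fun M : ℕ => ∏ v ∈ T, ∑ k ∈ Finset.range M, f_D1 K s v.asIdeal ^ k) atTop
      (𝓝 (∏ v ∈ T, (1 - f_D1 K s v.asIdeal)⁻¹)) := by
    refine tendsto_finset_prod _ fun v _ => ?_
    obtain ⟨hx0, hx1, _⟩ := x_le_D1 K hs v
    exact (hasSum_geometric_of_lt_one hx0 (by linarith)).tendsto_sum_nat
  exact le_of_tendsto' h2 h1

private theorem prodA1 {s : ℝ} (hs : 1 < s) (T : Finset (HeightOneSpectrum (𝓞 K))) :
    ∏ v ∈ T, (1 - f_D1 K s v.asIdeal)⁻¹ =
      Real.exp (∑ v ∈ T, -Real.log (1 - f_D1 K s v.asIdeal)) := by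
  rw [Real.exp_sum]
  refine Finset.prod_congr rfl fun v _ => ?_
  obtain ⟨hx0, hx1, _⟩ := x_le_D1 K hs v
  rw [Real.exp_neg, Real.exp_log (by linarith)]

private theorem lowA1 {s : ℝ} (hs : 1 < s) (B : ℝ)
    (hB : ∀ T : Finset (HeightOneSpectrum (𝓞 K)), ∑ v ∈ T, -Real.log (1 - f_D1 K s v.asIdeal) ≤ B) :
    ∑' I : NI_D1 K, f_D1 K s I.1 ≤ Real.exp B := by
  classical
  refine Real.tsum_le_of_sum_le (fun I => f_nonneg_D1 K s _) fun F => ?_
  obtain ⟨T, M, hF⟩ := cover_D1 K F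
  have h1 : ∑ I ∈ F, f_D1 K s I.1 ≤ ∑ I ∈ (Fintype.piFinset (fun _ : T => Finset.range M)).image
        (fun e => (⟨Ie_D1 K T e, Ie_ne_D1 K T e⟩ : NI_D1 K)), f_D1 K s I.1 :=
    Finset.sum_le_sum_of_subset_of_nonneg hF (fun I _ _ => f_nonneg_D1 K s _)
  refine h1.trans ?_
  rw [← prod_eq_D1]
  have h2 : ∏ v ∈ T, ∑ k ∈ Finset.range M, f_D1 K s v.asIdeal ^ k ≤
      ∏ v ∈ T, (1 - f_D1 K s v.asIdeal)⁻¹ := by
    refine Finset.prod_le_prod (fun v _ => ?_) fun v _ => ?_
    · exact Finset.sum_nonneg fun k _ => pow_nonneg (f_nonneg_D1 K s _) k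
    · obtain ⟨hx0, hx1, _⟩ := x_le_D1 K hs v
      have h3 := (summable_geometric_of_lt_one hx0 (by linarith)).sum_le_tsum (Finset.range M)
        (fun k _ => by positivity)
      rwa [tsum_geometric_of_lt_one hx0 (by linarith)] at h3
  refine h2.trans ?_
  rw [prodA1 K hs]
  exact Real.exp_le_exp.mpr (hB T)

private theorem nonnegA1 {s : ℝ} (hs : 1 < s) (v : HeightOneSpectrum (𝓞 K)) :
    0 ≤ -Real.log (1 - f_D1 K s v.asIdeal) := by
  obtain ⟨hx0, hx1, _⟩ := x_le_D1 K hs v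
  have := Real.log_nonpos (x := 1 - f_D1 K s v.asIdeal) (by linarith) (by linarith)
  linarith

end D1

/-- **A1** -/
theorem hA1 : StA1 := by
  intro K _ _ s hs
  obtain ⟨hI1, hI2⟩ := sum_ideals_D1 K hs
  have hz : (dedekindZeta K s).re = ∑' I : NI_D1 K, f_D1 K s I.1 := by rw [zeta_D1 K s, hI2]
  have hpos : 0 < ∑' I : NI_D1 K, f_D1 K s I.1 := by
    have h := upA1 K hs ∅
    rw [Finset.prod_empty] at h
    linarith
  have hle : ∀ T : Finset (HeightOneSpectrum (𝓞 K)),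
      ∑ v ∈ T, -Real.log (1 - f_D1 K s v.asIdeal) ≤ Real.log (∑' I : NI_D1 K, f_D1 K s I.1) := by
    intro T
    rw [Real.le_log_iff_exp_le hpos, ← prodA1 K hs]
    exact upA1 K hs T
  have hsum : Summable (fun v : HeightOneSpectrum (𝓞 K) => -Real.log (1 - f_D1 K s v.asIdeal)) :=
    summable_of_sum_le (fun v => nonnegA1 K hs v) hle
  refine ⟨hsum, ?_⟩
  rw [hz]
  refine le_antisymm (Real.tsum_le_of_sum_le (fun v => nonnegA1 K hs v) hle) ?_
  rw [Real.log_le_iff_le_exp hpos]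
  exact lowA1 K hs _ fun T => hsum.sum_le_tsum T (fun v _ => nonnegA1 K hs v)

end Pool.Agent.Helper80.TT
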